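import Pool.Agent.P8H16.RF.Stm3

set_option autoImplicit false

/-!
# Assembly
-/

namespace Pool.Agent.P8H16.RF

open Finset MeasureTheory

instance : IsProbabilityMeasure Pr := by unfold Pr; infer_instance

lemma fr_close (κ : ℝ) (θ : ℕ → unitInterval) (n : ℕ) (hn : 1 ≤ n) :
    0 ≤ fr κ n (θ n) - Real.log n ∧ fr κ n (θ n) - Real.log n ≤ (n : ℝ) ^ (-(1 + κ)) := by
  have hn0 : (0 : ℝ) < n := by exact_mod_cast hn
  have h0 : 0 ≤ ((θ n : unitInterval) : ℝ) := (θ n).2.1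
  have h1 : ((θ n : unitInterval) : ℝ) ≤ 1 := (θ n).2.2
  have hp : 0 < (n : ℝ) ^ (-(1 + κ)) := Real.rpow_pos_of_pos hn0 _
  have e1 : (n : ℝ) + (θ n : ℝ) * (n : ℝ) ^ (-κ) = n * (1 + (θ n : ℝ) * (n : ℝ) ^ (-(1 + κ))) := by
    rw [show -(1 + κ) = -κ - 1 by ring, Real.rpow_sub_one hn0.ne']
    field_simp
  have h2 : 0 ≤ (θ n : ℝ) * (n : ℝ) ^ (-(1 + κ)) := by positivity
  unfold fr
  rw [e1, Real.log_mul hn0.ne' (by linarith), add_sub_cancel_left]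
  refine ⟨Real.log_nonneg (by linarith), ?_⟩
  have h3 := Real.log_le_sub_one_of_pos (show 0 < 1 + (θ n : ℝ) * (n : ℝ) ^ (-(1 + κ)) by linarith)
  have h4 : (θ n : ℝ) * (n : ℝ) ^ (-(1 + κ)) ≤ 1 * (n : ℝ) ^ (-(1 + κ)) :=
    mul_le_mul_of_nonneg_right h1 hp.le
  linarith

theorem up (hM : S_MEAN) (hA : S_ALM3) (hG3 : S_GEN3) (κ s : ℝ) (hκ : 0 ≤ κ)
    (hs : 1 / 2 ≤ s) (h : L1 (fun n => Real.log n) (1 + κ) s) :
    ∀ᵐ θ ∂Pr, BoundX (fun n => fr κ n (θ n)) s := by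
  filter_upwards [hA κ s hs (hM κ s hκ h)] with θ hθ
  exact (hG3 _ s hs).1 hθ

theorem down' (hD : S_DOWN) (hG : S_GEN) (κ s : ℝ) (hκ : 0 ≤ κ) (hs : 0 ≤ s)
    (θ : ℕ → unitInterval) (h : Bound (fun n => fr κ n (θ n)) (1 + κ) s) :
    Bound (fun n => Real.log n) (1 + κ) s :=
  (hG _ _ s hs).2 (hD κ s _ hκ (fun n hn => fr_close κ θ n hn) ((hG _ _ s hs).1 (by linarith) h))

theorem main (hD : S_DOWN) (hM : S_MEAN) (hA : S_ALM3) (hG : S_GEN) (hG3 : S_GEN3)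
    (hO : S_ONE) (hH : S_HAL) :
    (∀ κ s : ℝ, 0 ≤ κ → 1 / 2 ≤ s →
      (Bound (fun n => Real.log n) (1 + κ) s ↔ ∀ᵐ θ ∂Pr, BoundX (fun n => fr κ n (θ n)) s) ∧
      (Bound (fun n => Real.log n) (1 + κ) s ↔
        ∃ θ : ℕ → unitInterval, Bound (fun n => fr κ n (θ n)) (1 + κ) s)) ∧
    (∀ᵐ θ ∂Pr, BoundX (fun n => fr 0 n (θ n)) (1 / 2)) ∧
    (∀ κ : ℝ, 0 ≤ κ → κ ≤ 1 → ∀ᵐ θ ∂Pr, BoundX (fun n => fr κ n (θ n)) ((3 + κ) / 4)) ∧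
    ((∀ A : ℝ, Bound (fun n => Real.log n) A (1 / 2)) ↔
      ∀ κ : ℝ, 0 ≤ κ → ∀ᵐ θ ∂Pr, BoundX (fun n => fr κ n (θ n)) (1 / 2)) := by
  have key : ∀ κ s : ℝ, 0 ≤ κ → 1 / 2 ≤ s → Bound (fun n => Real.log n) (1 + κ) s →
      ∀ᵐ θ ∂Pr, BoundX (fun n => fr κ n (θ n)) s := by
    intro κ s hκ hs h
    exact up hM hA hG3 κ s hκ hs ((hG _ _ s (by linarith)).1 (by linarith) h)
  have key2 : ∀ κ s : ℝ, 0 ≤ κ → 1 / 2 ≤ s → (∀ᵐ θ ∂Pr, BoundX (fun n => fr κ n (θ n)) s) →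
      Bound (fun n => Real.log n) (1 + κ) s := by
    intro κ s hκ hs h
    obtain ⟨θ, hθ⟩ := h.exists
    exact down' hD hG κ s hκ (by linarith) θ ((hG3 _ s hs).2 hθ _)
  refine ⟨fun κ s hκ hs => ⟨⟨key κ s hκ hs, key2 κ s hκ hs⟩, ⟨fun h => ?_, fun ⟨θ, h⟩ => ?_⟩⟩,
    ?_, ?_, ?_⟩
  · obtain ⟨θ, hθ⟩ := (key κ s hκ hs h).exists
    exact ⟨θ, (hG3 _ s hs).2 hθ _⟩
  · exact down' hD hG κ s hκ (by linarith) θ h
  · refine up hM hA hG3 0 (1 / 2) le_rfl le_rfl ?_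
    rw [add_zero]
    exact hO
  · intro κ h0 h1
    exact up hM hA hG3 κ _ h0 (by linarith) (hH κ h0 h1)
  · refine ⟨fun h κ hκ => key κ _ hκ le_rfl (h _), fun h A => ?_⟩
    have h1 := key2 (max (A - 1) 0) (1 / 2) (le_max_right _ _) le_rfl (h _ (le_max_right _ _))
    -- monotonicity in the exponent
    intro σ hσ ε hε
    obtain ⟨C, hC⟩ := h1 σ hσ ε hε
    refine ⟨C, fun N hN T hNT hT b hb W hW => hC N hN T hNT (hT.trans ?_) b hb W hW⟩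
    refine Real.rpow_le_rpow_of_exponent_le (by exact_mod_cast hN) ?_
    have := le_max_left (A - 1) 0
    linarith

end Pool.Agent.P8H16.RF
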