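import Pool.Agent.P8H16.RF.Stm2

set_option autoImplicit false

/-!
# Project RF, final form: the optimal range `T ≤ exp (N ^ (2σ - 1 - ε))` for the perturbed frequencies
-/

namespace Pool.Agent.P8H16.RF

open Finset MeasureTheory

/-- the dual bound for all `M ≤ exp (N ^ δ) + 1` -/
def L1x (x : ℕ → ℝ) (s : ℝ) : Prop :=
  ∀ δ : ℝ, 0 ≤ δ → ∀ ε : ℝ, 0 < ε → ∃ C : ℝ, 0 ≤ C ∧ ∀ (N M : ℕ) (a : ℕ → ℂ), 1 ≤ N →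
    (M : ℝ) ≤ Real.exp ((N : ℝ) ^ δ) + 1 →
    ∑ n ∈ Icc N (2 * N), ‖F M a (x n)‖ ≤
      C * (N : ℝ) ^ ε * ((N : ℝ) * n2 M a + ((N : ℝ) ^ s + (N : ℝ) ^ ((1 + δ) / 2)) * n1 M a)

/-- Montgomery's bound for the frequencies `x n`, all exponents `σ > s`, `T ≤ exp (N ^ (2σ - 1 - ε))` -/
def BoundX (x : ℕ → ℝ) (s : ℝ) : Prop :=
  ∀ σ : ℝ, s < σ → ∀ ε : ℝ, 0 < ε → ∃ C : ℝ,
    ∀ N : ℕ, 1 ≤ N → ∀ T : ℝ, T ≤ Real.exp ((N : ℝ) ^ (2 * σ - 1 - ε)) →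
    ∀ b : ℕ → ℂ, (∀ n, ‖b n‖ ≤ 1) →
    ∀ W : Finset ℤ, (∀ t ∈ W, 0 ≤ (t : ℝ) ∧ (t : ℝ) ≤ T ∧
      (N : ℝ) ^ σ < ‖∑ n ∈ Icc N (2 * N), b n * e ((t : ℝ) * x n)‖) →
      (W.card : ℝ) ≤ C * (N : ℝ) ^ (2 - 2 * σ + ε)

/-- **ALM3** (`theorem alm3 (h : S_FIN) : S_ALM3`; ALM2 with explicit `δ`).
Proof. For rational `δ ≥ 0`, `ε > 0` (`ae_all_iff`): `M_N = ⌊exp (N^δ) + 1⌋₊`,
`u_N² = 32 (N+1) (N^δ + 3 log (N+2))`; the event of FIN has measure `≤ 16 M_N exp (-N^δ) (N+2)^{-3} ≤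
32 (N+2)^{-2}`, summable; for `N ≥ N₀(θ)`: `∑ ‖F‖ ≤ 4 u_N n1 + 2 (Mean)`, `u_N ≤ C N^{(1+δ)/2 + ε}`; for
`N < N₀` the trivial bound `(N+1) n1`. For real `δ ≥ 0`, `ε > 0` take rationals `δ ≤ δ' ≤ δ + ε`,
`0 < ε' ≤ ε/2`: the range for `δ'` is larger and `N^{(1+δ')/2} ≤ N^{ε/2} N^{(1+δ)/2}`. -/
def S_ALM3 : Prop := ∀ κ s : ℝ, 1 / 2 ≤ s → Mean κ s → ∀ᵐ θ ∂Pr, L1x (fun n => fr κ n (θ n)) s

/-- **GEN3** (150 lines; GEN2 with explicit `δ`).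
Proof. (1) Let `s < σ`, `0 < ε`. If `2σ - 1 - ε ≤ 0` then `T ≤ exp 1 < 3`, `R = |W| ≤ 3` and
`2 - 2σ + ε ≥ 1 > 0`. Otherwise `δ = 2σ - 1 - ε`, `ε' = min (ε/4) ((σ-s)/2)`: with `a` unimodular on `W`
(as in GEN) `R N^σ ≤ C N^{ε'} (N √R + (N^s + N^{σ - ε/2}) R)`, and `N^{ε'} (N^s + N^{σ-ε/2}) ≤
N^{σ - (σ-s)/2} + N^{σ - ε/4} ≤ N^σ / (2C)` for large `N`, so `R ≤ 4 C² N^{2 - 2σ + 2ε'}`; for `N < N₀`: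
`R ≤ exp (N₀^δ) + 1`.
(2) Given `A`, `σ > s ≥ 1/2`, `ε`, apply `BoundX` with `ε'' = min ε ((2σ-1)/2)`; then
`N^A ≤ exp (N^{2σ-1-ε''})` for `N ≥ N₀`, and for `N < N₀`, `R ≤ N₀^{|A|} + 1`. -/
def S_GEN3 : Prop := ∀ (x : ℕ → ℝ) (s : ℝ), 1 / 2 ≤ s →
  (L1x x s → BoundX x s) ∧ (BoundX x s → ∀ A : ℝ, Bound x A s)

open Classical in
/-- **OPT** (250 lines). The range of `T` is optimal, for ALL real frequencies: beyond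
`exp (N^{2σ-1+ε})` there are signs with more than `N^B` large values.
Proof. Fix `t` and random independent signs `b_n`, `n ∈ [N,2N]`. Let `a_n` be `Re e(t x_n)` or
`Im e(t x_n)`, chosen such that `∑ a_n² ≥ (N+1)/2`. Cut `[N,2N]` into `m = ⌈40 N^{2σ-1}⌉` groups `G_i` of at
most `g ≤ 2(N+1)/m` elements (`N` large, `m ≤ N+1`). For a real signed sum `S = ∑_G b_n a_n`,
`A = ∑_G a_n²`: `E S² = A`, `E S⁴ ≤ 3A²`, so `P(S² ≥ A/4) ≥ 3/16` (Paley-Zygmund) and by symmetry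
`P(S ≥ √A/2) ≥ 3/32`. The groups are independent, so with probability at least `(3/32)^m` ALL group sums
are `≥ √A_i/2`, and then `‖D(t)‖ ≥ ∑ √A_i/2 ≥ ∑ A_i/(2√g) ≥ (N+1)/(4√g) ≥ √(m(N+1))/(4√2) > N^σ`
(as `√A_i ≥ A_i/√g`). Hence `∑_b #{t ≤ T : ‖D‖ > N^σ} ≥ 2^{N+1} T (3/32)^m`, so some `b` has at least
`T (3/32)^m ≥ exp (N^{2σ-1+ε} - 3m) - 1 ≥ N^B` such `t`, for large `N`. (Signs as subsets of `Icc N (2*N)` or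
functions to `Bool`; induction on the groups for the independence.) -/
def S_OPT : Prop := ∀ (x : ℕ → ℝ) (σ ε B : ℝ), 1 / 2 < σ → σ < 1 → 0 < ε → ∃ N₀ : ℕ, ∀ N : ℕ, N₀ ≤ N →
  ∃ b : ℕ → ℂ, (∀ n, b n = 1 ∨ b n = -1) ∧
    (N : ℝ) ^ B ≤ (((range (⌊Real.exp ((N : ℝ) ^ (2 * σ - 1 + ε))⌋₊ + 1)).filter
      (fun t : ℕ => (N : ℝ) ^ σ < ‖∑ n ∈ Icc N (2 * N), b n * e ((t : ℝ) * x n)‖)).card : ℝ)

end Pool.Agent.P8H16.RF
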