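import Pool.Agent.P8H16.RF.Mean
import Pool.Agent.P8H16.RF.Asm3
import Pool.Agent.P8H71.RF.Tay
import Pool.Agent.P8H71.RF.Alm3
import Pool.Agent.P8H71.RF.Opt
import Pool.Agent.P8H84.RF.Ort
import Pool.Agent.P8H84.RF.Khi
import Pool.Agent.P8H84.RF.Sqf
import Pool.Agent.P8H21.RF.Sym
import Pool.Agent.P8H29.RF.Swp
import Pool.Agent.P8H29.RF.One
import Pool.Agent.P8H29.RF.Hal
import Pool.Agent.P8H78.RF.Fin
import Pool.Agent.P8H61.RF.Gen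
import Pool.Agent.P8H88.RF.Gen3

set_option autoImplicit false

/-!
# The complete theorem
-/

namespace Pool.Agent.P8H16.RF

open Finset MeasureTheory

theorem mean' : S_MEAN :=
  mean Pool.Agent.P8H71.RF.tay Pool.Agent.P8H84.RF.ort
    (Pool.Agent.P8H84.RF.sqf Pool.Agent.P8H84.RF.khi)

theorem alm3' : S_ALM3 :=
  Pool.Agent.P8H71.RF.alm3 (Pool.Agent.P8H78.RF.fin Pool.Agent.P8H21.RF.sym Pool.Agent.P8H29.RF.swpT)

theorem gen3' : S_GEN3 := Pool.Agent.P8H88.RF.gen3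

theorem opt' : S_OPT := Pool.Agent.P8H71.RF.opt

theorem final :
    (∀ κ s : ℝ, 0 ≤ κ → 1 / 2 ≤ s →
      (Bound (fun n => Real.log n) (1 + κ) s ↔ ∀ᵐ θ ∂Pr, BoundX (fun n => fr κ n (θ n)) s) ∧
      (Bound (fun n => Real.log n) (1 + κ) s ↔
        ∃ θ : ℕ → unitInterval, Bound (fun n => fr κ n (θ n)) (1 + κ) s)) ∧
    (∀ᵐ θ ∂Pr, BoundX (fun n => fr 0 n (θ n)) (1 / 2)) ∧
    (∀ κ : ℝ, 0 ≤ κ → κ ≤ 1 → ∀ᵐ θ ∂Pr, BoundX (fun n => fr κ n (θ n)) ((3 + κ) / 4)) ∧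
    ((∀ A : ℝ, Bound (fun n => Real.log n) A (1 / 2)) ↔
      ∀ κ : ℝ, 0 ≤ κ → ∀ᵐ θ ∂Pr, BoundX (fun n => fr κ n (θ n)) (1 / 2)) :=
  main (Pool.Agent.P8H71.RF.down Pool.Agent.P8H71.RF.tay) mean' alm3' Pool.Agent.P8H61.RF.gen gen3'
    Pool.Agent.P8H29.RF.one Pool.Agent.P8H29.RF.hal

end Pool.Agent.P8H16.RF
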