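import Pool.Agent.P8H16.RF.Stm

set_option autoImplicit false

/-!
# The average over the perturbations
-/

namespace Pool.Agent.P8H16.RF

open Finset MeasureTheory

lemma e_add (x y : ℝ) : e (x + y) = e x * e y := by
  unfold e
  rw [← Complex.exp_add]
  congr 1
  push_cast
  ring

lemma norm_e (x : ℝ) : ‖e x‖ = 1 := Complex.norm_exp_ofReal_mul_I x

lemma continuous_e : Continuous e := by
  unfold e
  fun_prop

lemma sum_blocks (J H : ℕ) (f : ℕ → ℂ) :
    ∑ t ∈ range (J * H), f t = ∑ j ∈ range J, ∑ u ∈ range H, f (j * H + u) := by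
  induction J with
  | zero => simp
  | succ J ih =>
    rw [sum_range_succ, ← ih, Nat.succ_mul, Finset.sum_range_add]

lemma cs (f : ℝ → ℝ) (hf : ContinuousOn f (Set.uIcc 0 1)) :
    ∫ r in (0 : ℝ)..1, f r ≤ Real.sqrt (∫ r in (0 : ℝ)..1, f r ^ 2) := by
  set m : ℝ := ∫ r in (0 : ℝ)..1, f r with hm
  have i1 : IntervalIntegrable f volume 0 1 := hf.intervalIntegrable
  have i2 : IntervalIntegrable (fun r => f r ^ 2) volume 0 1 := (hf.pow 2).intervalIntegrable
  have h0 : 0 ≤ ∫ r in (0 : ℝ)..1, (f r - m) ^ 2 :=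
    intervalIntegral.integral_nonneg zero_le_one fun r _ => sq_nonneg _
  have h1 : ∫ r in (0 : ℝ)..1, (f r - m) ^ 2 = (∫ r in (0 : ℝ)..1, f r ^ 2) - m ^ 2 := by
    have e1 : ∀ r, (f r - m) ^ 2 = f r ^ 2 - 2 * m * f r + m ^ 2 := fun r => by ring
    simp_rw [e1]
    rw [intervalIntegral.integral_add (i2.sub (i1.const_mul _)) (by simp),
      intervalIntegral.integral_sub i2 (i1.const_mul _), intervalIntegral.integral_const_mul,
      ← hm, intervalIntegral.integral_const]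
    simp only [sub_zero, smul_eq_mul]
    ring
  rw [h1] at h0
  have h2 : m ^ 2 ≤ ∫ r in (0 : ℝ)..1, f r ^ 2 := by linarith
  exact (le_abs_self m).trans (Real.abs_le_sqrt h2)

/-- the block sums -/
noncomputable def bl (H : ℕ) (a : ℕ → ℂ) (k n j : ℕ) : ℂ :=
  ∑ u ∈ range H, a (j * H + u) * ((((u : ℝ) / H) ^ k : ℝ) : ℂ) * e ((u : ℝ) * Real.log n)

lemma w_le (H u k : ℕ) (hu : u < H) : |((u : ℝ) / H) ^ k| ≤ 1 := by
  rw [abs_pow]
  have hH : (0 : ℝ) < H := by
    have : 0 < H := by omega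
    exact_mod_cast this
  refine pow_le_one₀ (abs_nonneg _) ?_
  rw [abs_of_nonneg (by positivity), div_le_one hH]
  exact_mod_cast hu.le

lemma bl_le (H J : ℕ) (a : ℕ → ℂ) (k n : ℕ) :
    ∑ j ∈ range J, ‖bl H a k n j‖ ≤ n1 (J * H) a := by
  have h1 : n1 (J * H) a = ∑ j ∈ range J, ∑ u ∈ range H, ‖a (j * H + u)‖ := by
    have h2 := sum_blocks J H (fun t => ((‖a t‖ : ℝ) : ℂ))
    unfold n1
    exact_mod_cast h2
  rw [h1]
  refine sum_le_sum fun j _ => ?_
  unfold bl
  refine (norm_sum_le _ _).trans (sum_le_sum fun u hu => ?_)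
  rw [norm_mul, norm_mul, norm_e, mul_one, Complex.norm_real, Real.norm_eq_abs]
  exact mul_le_of_le_one_right (norm_nonneg _) (w_le H u k (mem_range.1 hu))

lemma sqrt_le_n1 (H J : ℕ) (a : ℕ → ℂ) (k n : ℕ) :
    Real.sqrt (∑ j ∈ range J, ‖bl H a k n j‖ ^ 2) ≤ n1 (J * H) a := by
  refine le_trans ?_ (bl_le H J a k n)
  rw [Real.sqrt_le_left (sum_nonneg fun _ _ => norm_nonneg _)]
  exact sum_sq_le_sq_sum_of_nonneg fun _ _ => norm_nonneg _

/-- the sum over the blocks -/
noncomputable def gs (H J : ℕ) (a : ℕ → ℂ) (k n : ℕ) (v : ℝ) : ℂ :=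
  ∑ j ∈ range J, e ((j : ℝ) * H * Real.log n) * bl H a k n j * e ((j : ℝ) * v)

lemma gs_norm (H J : ℕ) (a : ℕ → ℂ) (k n : ℕ) (v : ℝ) : ‖gs H J a k n v‖ ≤ n1 (J * H) a := by
  unfold gs
  refine (norm_sum_le _ _).trans (le_trans (sum_le_sum fun j _ => ?_) (bl_le H J a k n))
  rw [norm_mul, norm_mul, norm_e, norm_e, one_mul, mul_one]

lemma cast_block (H j u : ℕ) (hH : 0 < H) (hu : u < H) :
    (((j * H + u) % H : ℕ) : ℝ) = u ∧ (((j * H + u) / H : ℕ) : ℝ) = j := by
  have h1 : (j * H + u) % H = u := by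
    rw [Nat.add_mod, Nat.mul_mod_left, zero_add, Nat.mod_mod, Nat.mod_eq_of_lt hu]
  have h2 : (j * H + u) / H = j := by
    rw [Nat.mul_comm, Nat.mul_add_div hH, Nat.div_eq_of_lt hu, add_zero]
  rw [h1, h2]
  exact ⟨rfl, rfl⟩

/-- pointwise Taylor bound -/
lemma ptw (hT : S_TAY) (H J n : ℕ) (hH : 0 < H) (a : ℕ → ℂ) (η : ℝ) (hη : |(H : ℝ) * η| ≤ 1) :
    Summable (fun k : ℕ => (1 / (k.factorial : ℝ)) * ‖gs H J a k n (H * η)‖) ∧
    ‖F (J * H) a (Real.log n + η)‖ ≤
      ∑' k : ℕ, (1 / (k.factorial : ℝ)) * ‖gs H J a k n (H * η)‖ := by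
  have hH0 : (H : ℝ) ≠ 0 := by
    have : (0 : ℝ) < H := by exact_mod_cast hH
    exact this.ne'
  obtain ⟨h1, h2⟩ := hT (J * H) (fun t => a t * e ((t : ℝ) * Real.log n) *
    e (((t / H : ℕ) : ℝ) * (H * η))) (fun t => ((t % H : ℕ) : ℝ) / H) (H * η) hη
  have h3 : ∀ k : ℕ, ∑ t ∈ range (J * H), (a t * e ((t : ℝ) * Real.log n) *
      e (((t / H : ℕ) : ℝ) * (H * η))) * (((((t % H : ℕ) : ℝ) / H : ℝ) : ℂ)) ^ k =
      gs H J a k n (H * η) := by
    intro k
    rw [sum_blocks]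
    unfold gs
    refine sum_congr rfl fun j _ => ?_
    unfold bl
    rw [mul_sum, sum_mul]
    refine sum_congr rfl fun u hu => ?_
    obtain ⟨c1, c2⟩ := cast_block H j u hH (mem_range.1 hu)
    rw [c1, c2]
    have e1 : (((j * H + u : ℕ) : ℝ)) * Real.log n = (j : ℝ) * H * Real.log n + (u : ℝ) * Real.log n := by
      push_cast
      ring
    rw [e1, e_add]
    push_cast
    ring
  have h4 : ∑ t ∈ range (J * H), (a t * e ((t : ℝ) * Real.log n) *
      e (((t / H : ℕ) : ℝ) * (H * η))) * e (((t % H : ℕ) : ℝ) / H * (H * η)) =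
      F (J * H) a (Real.log n + η) := by
    unfold F
    refine sum_congr rfl fun t _ => ?_
    rw [mul_assoc, mul_assoc, ← e_add, ← e_add]
    congr 2
    have e2 : (t : ℝ) = ((t / H : ℕ) : ℝ) * H + ((t % H : ℕ) : ℝ) := by
      have := Nat.div_add_mod t H
      have h5 : ((H * (t / H) + t % H : ℕ) : ℝ) = (t : ℝ) := by rw [this]
      push_cast at h5
      linarith
    have e3 : ((t % H : ℕ) : ℝ) / H * (H * η) = ((t % H : ℕ) : ℝ) * η := by
      field_simp
    rw [e3]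
    have e4 : (t : ℝ) * (Real.log n + η) = (t : ℝ) * Real.log n +
        (((t / H : ℕ) : ℝ) * H + ((t % H : ℕ) : ℝ)) * η := by rw [← e2]; ring
    rw [e4]
    ring
  simp only [h3] at h1 h2
  rw [h4] at h2
  exact ⟨h1, h2⟩

lemma sum_fact : Summable (fun k : ℕ => 1 / (k.factorial : ℝ)) ∧
    ∑' k : ℕ, 1 / (k.factorial : ℝ) ≤ 3 := by
  have h1 : HasSum (fun k : ℕ => 1 / (k.factorial : ℝ)) (Real.exp 1) := by
    have h2 := NormedSpace.expSeries_div_hasSum_exp (𝔸 := ℝ) 1
    rw [← Real.exp_eq_exp_ℝ] at h2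
    simpa using h2
  refine ⟨h1.summable, ?_⟩
  rw [h1.tsum_eq]
  have := Real.exp_one_lt_d9
  linarith

/-- the average for one `n` -/
lemma avg (hT : S_TAY) (hO : S_ORT) (H J n : ℕ) (hH : 0 < H) (a : ℕ → ℂ) (M K : ℝ)
    (hM1 : (H : ℝ) ≤ M) (hM2 : M ≤ K * H) :
    ∫ r in (0 : ℝ)..1, ‖F (J * H) a (Real.log n + Real.log (1 + r / M))‖ ≤
      Real.sqrt (4 * Real.pi * K) * ∑' k : ℕ, (1 / (k.factorial : ℝ)) *
        Real.sqrt (∑ j ∈ range J, ‖bl H a k n j‖ ^ 2) := by
  have hH1 : (1 : ℝ) ≤ H := by exact_mod_cast hH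
  have hM0 : 0 < M := by linarith
  have hη : ∀ r ∈ Set.uIcc (0 : ℝ) 1, |(H : ℝ) * Real.log (1 + r / M)| ≤ 1 := by
    intro r hr
    rw [Set.uIcc_of_le zero_le_one, Set.mem_Icc] at hr
    have h1 : 0 ≤ r / M := div_nonneg hr.1 hM0.le
    have h2 : 0 ≤ Real.log (1 + r / M) := Real.log_nonneg (by linarith)
    have h3 : Real.log (1 + r / M) ≤ r / M := by
      have := Real.log_le_sub_one_of_pos (show 0 < 1 + r / M by linarith)
      linarith
    rw [abs_of_nonneg (by positivity)]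
    calc (H : ℝ) * Real.log (1 + r / M) ≤ M * (r / M) :=
          mul_le_mul hM1 h3 h2 hM0.le
      _ = r := by field_simp
      _ ≤ 1 := hr.2
  have hlogc : ContinuousOn (fun r : ℝ => (H : ℝ) * Real.log (1 + r / M)) (Set.uIcc 0 1) := by
    refine ContinuousOn.mul continuousOn_const (ContinuousOn.log ?_ ?_)
    · fun_prop
    · intro r hr
      rw [Set.uIcc_of_le zero_le_one, Set.mem_Icc] at hr
      have h1 : 0 ≤ r / M := div_nonneg hr.1 hM0.le
      linarith
  have hgc : ∀ k, Continuous (fun v => gs H J a k n v) := by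
    intro k
    unfold gs
    refine continuous_finsetSum _ fun j _ => ?_
    exact continuous_const.mul (continuous_e.comp (by fun_prop))
  have hG : ∀ k : ℕ, ContinuousOn (fun r : ℝ => ‖gs H J a k n (H * Real.log (1 + r / M))‖)
      (Set.uIcc 0 1) := fun k => ((hgc k).comp_continuousOn hlogc).norm
  -- the series
  have hsum := sum_fact.1
  have hIoc : Set.uIoc (0 : ℝ) 1 ⊆ Set.uIcc 0 1 := Set.uIoc_subset_uIcc
  have hS : HasSum (fun k : ℕ => ∫ r in (0 : ℝ)..1, (1 / (k.factorial : ℝ)) *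
      ‖gs H J a k n (H * Real.log (1 + r / M))‖)
      (∫ r in (0 : ℝ)..1, ∑' k : ℕ, (1 / (k.factorial : ℝ)) *
        ‖gs H J a k n (H * Real.log (1 + r / M))‖) := by
    refine intervalIntegral.hasSum_integral_of_dominated_convergence
      (fun k _ => (1 / (k.factorial : ℝ)) * n1 (J * H) a) ?_ ?_ ?_ ?_ ?_
    · intro k
      refine ContinuousOn.aestronglyMeasurable ?_ measurableSet_uIoc
      exact (continuousOn_const.mul (hG k)).mono hIoc
    · intro k
      refine Filter.Eventually.of_forall fun r _ => ?_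
      rw [norm_mul, norm_norm, Real.norm_of_nonneg (by positivity)]
      exact mul_le_mul_of_nonneg_left (gs_norm _ _ _ _ _ _) (by positivity)
    · exact Filter.Eventually.of_forall fun r _ => hsum.mul_right _
    · simp
    · refine Filter.Eventually.of_forall fun r hr => ?_
      exact (ptw hT H J n hH a _ (hη r (hIoc hr))).1.hasSum
  have h1 : ∫ r in (0 : ℝ)..1, ‖F (J * H) a (Real.log n + Real.log (1 + r / M))‖ ≤
      ∫ r in (0 : ℝ)..1, ∑' k : ℕ, (1 / (k.factorial : ℝ)) *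
        ‖gs H J a k n (H * Real.log (1 + r / M))‖ := by
    refine intervalIntegral.integral_mono_on zero_le_one ?_ ?_ fun r hr => ?_
    · refine ContinuousOn.intervalIntegrable ?_
      have hF : Continuous (fun x => F (J * H) a x) := by
        unfold F
        refine continuous_finsetSum _ fun t _ => ?_
        exact continuous_const.mul (continuous_e.comp (by fun_prop))
      refine (hF.comp_continuousOn (continuousOn_const.add ?_)).norm
      refine ContinuousOn.log (by fun_prop) ?_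
      intro r hr
      rw [Set.uIcc_of_le zero_le_one, Set.mem_Icc] at hr
      have h1 : 0 ≤ r / M := div_nonneg hr.1 hM0.le
      linarith
    · refine ContinuousOn.intervalIntegrable ?_
      refine continuousOn_tsum (u := fun k : ℕ => (1 / (k.factorial : ℝ)) * n1 (J * H) a)
        (fun k => continuousOn_const.mul (hG k)) (hsum.mul_right _) fun k r _ => ?_
      rw [norm_mul, norm_norm, Real.norm_of_nonneg (by positivity)]
      exact mul_le_mul_of_nonneg_left (gs_norm _ _ _ _ _ _) (by positivity)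
    · exact (ptw hT H J n hH a _ (hη r (by rwa [Set.uIcc_of_le zero_le_one]))).2
  rw [← hS.tsum_eq] at h1
  refine h1.trans ?_
  -- each term
  have h2 : ∀ k : ℕ, ∫ r in (0 : ℝ)..1, (1 / (k.factorial : ℝ)) *
      ‖gs H J a k n (H * Real.log (1 + r / M))‖ ≤
      Real.sqrt (4 * Real.pi * K) * ((1 / (k.factorial : ℝ)) *
        Real.sqrt (∑ j ∈ range J, ‖bl H a k n j‖ ^ 2)) := by
    intro k
    rw [intervalIntegral.integral_const_mul]
    have h3 := cs _ (hG k)
    have h4 := hO M H K J (fun j => e ((j : ℝ) * H * Real.log n) * bl H a k n j) hH1 hM1 hM2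
    have h5 : ∑ j ∈ range J, ‖e ((j : ℝ) * H * Real.log n) * bl H a k n j‖ ^ 2 =
        ∑ j ∈ range J, ‖bl H a k n j‖ ^ 2 := by
      refine sum_congr rfl fun j _ => ?_
      rw [norm_mul, norm_e, one_mul]
    rw [h5] at h4
    have h6 := Real.sqrt_le_sqrt h4
    have hK : 0 ≤ K := by
      by_contra hc
      push Not at hc
      nlinarith
    rw [Real.sqrt_mul (by positivity)] at h6
    have h7 : ∫ r in (0 : ℝ)..1, ‖gs H J a k n (H * Real.log (1 + r / M))‖ ≤
        Real.sqrt (4 * Real.pi * K) * Real.sqrt (∑ j ∈ range J, ‖bl H a k n j‖ ^ 2) := h3.trans h6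
    calc _ ≤ (1 / (k.factorial : ℝ)) * (Real.sqrt (4 * Real.pi * K) *
          Real.sqrt (∑ j ∈ range J, ‖bl H a k n j‖ ^ 2)) :=
          mul_le_mul_of_nonneg_left h7 (by positivity)
      _ = _ := by ring
  rw [← tsum_mul_left]
  refine Summable.tsum_le_tsum h2 hS.summable ?_
  refine Summable.mul_left _ ?_
  refine Summable.of_nonneg_of_le (fun k => by positivity) (fun k => ?_) (hsum.mul_right (n1 (J * H) a))
  exact mul_le_mul_of_nonneg_left (sqrt_le_n1 _ _ _ _ _) (by positivity)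

lemma n1_ext (M M' : ℕ) (h : M ≤ M') (a : ℕ → ℂ) :
    n1 M' (fun t => if t < M then a t else 0) = n1 M a ∧
    n2 M' (fun t => if t < M then a t else 0) = n2 M a ∧
    ∀ x, F M' (fun t => if t < M then a t else 0) x = F M a x := by
  have hs : range M ⊆ range M' := by
    intro t ht
    rw [mem_range] at ht ⊢
    omega
  refine ⟨?_, ?_, fun x => ?_⟩
  · unfold n1
    rw [← sum_subset hs]
    · refine sum_congr rfl fun t ht => ?_
      simp only [if_pos (mem_range.1 ht)]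
    · intro t _ ht
      simp only [if_neg (fun h' => ht (mem_range.2 h')), norm_zero]
  · unfold n2
    rw [← sum_subset hs]
    · congr 1
      refine sum_congr rfl fun t ht => ?_
      simp only [if_pos (mem_range.1 ht)]
    · intro t _ ht
      simp only [if_neg (fun h' => ht (mem_range.2 h')), norm_zero]
      norm_num
  · unfold F
    rw [← sum_subset hs]
    · refine sum_congr rfl fun t ht => ?_
      simp only [if_pos (mem_range.1 ht)]
    · intro t _ ht
      simp only [if_neg (fun h' => ht (mem_range.2 h')), zero_mul]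

lemma fr_eq (κ : ℝ) (n : ℕ) (hn : 1 ≤ n) (r : ℝ) (hr : 0 ≤ r) :
    fr κ n r = Real.log n + Real.log (1 + r / (n : ℝ) ^ (1 + κ)) := by
  have hn0 : (0 : ℝ) < n := by exact_mod_cast hn
  have h1 : 0 ≤ r / (n : ℝ) ^ (1 + κ) := div_nonneg hr (Real.rpow_nonneg hn0.le _)
  unfold fr
  rw [← Real.log_mul hn0.ne' (by linarith)]
  congr 1
  rw [mul_add, mul_one, Real.rpow_add hn0, Real.rpow_one, Real.rpow_neg hn0.le]
  have h2 : (n : ℝ) ^ κ ≠ 0 := (Real.rpow_pos_of_pos hn0 _).ne'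
  field_simp

theorem mean (hT : S_TAY) (hO : S_ORT) (hQ : S_SQF) : S_MEAN := by
  intro κ s hκ hL ε hε
  obtain ⟨C, hC0, hC⟩ := hQ κ s hL ε hε
  set K : ℝ := 2 ^ (2 + κ) with hK
  refine ⟨Real.sqrt (4 * Real.pi * K) * (3 * C), by positivity, fun N M a hN => ?_⟩
  have hN0 : (0 : ℝ) < N := by exact_mod_cast hN
  have hN1 : (1 : ℝ) ≤ N := by exact_mod_cast hN
  have hX1 : (1 : ℝ) ≤ (N : ℝ) ^ (1 + κ) := Real.one_le_rpow hN1 (by linarith)
  set H : ℕ := ⌊(N : ℝ) ^ (1 + κ)⌋₊ with hH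
  have hHpos : 0 < H := Nat.floor_pos.2 hX1
  have hHle : (H : ℝ) ≤ (N : ℝ) ^ (1 + κ) := Nat.floor_le (by linarith)
  have hHge : (N : ℝ) ^ (1 + κ) ≤ 2 * H := by
    have h1 := Nat.lt_floor_add_one ((N : ℝ) ^ (1 + κ))
    have h2 : (1 : ℝ) ≤ H := by exact_mod_cast hHpos
    linarith
  set a' : ℕ → ℂ := fun t => if t < M then a t else 0 with ha'
  have hMJ : M ≤ M * H := Nat.le_mul_of_pos_right M hHpos
  obtain ⟨q1, q2, q3⟩ := n1_ext M (M * H) hMJ a
  rw [← ha'] at q1 q2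
  set P : ℝ := (N : ℝ) ^ ε * ((N : ℝ) * n2 M a + (N : ℝ) ^ s * n1 M a) with hP
  have hP0 : 0 ≤ P := by
    rw [hP]
    unfold n2 n1
    have : 0 ≤ ∑ t ∈ range M, ‖a t‖ := sum_nonneg fun _ _ => norm_nonneg _
    positivity
  -- one `n`
  have h1 : ∀ n ∈ Icc N (2 * N), ∫ r in (0 : ℝ)..1, ‖F M a (fr κ n r)‖ ≤
      Real.sqrt (4 * Real.pi * K) * ∑' k : ℕ, (1 / (k.factorial : ℝ)) *
        Real.sqrt (∑ j ∈ range M, ‖bl H a' k n j‖ ^ 2) := by
    intro n hn
    rw [mem_Icc] at hn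
    have hn1 : 1 ≤ n := hN.trans hn.1
    have hn0 : (0 : ℝ) < n := by exact_mod_cast hn1
    have e1 : ∫ r in (0 : ℝ)..1, ‖F M a (fr κ n r)‖ =
        ∫ r in (0 : ℝ)..1, ‖F (M * H) a' (Real.log n + Real.log (1 + r / (n : ℝ) ^ (1 + κ)))‖ := by
      refine intervalIntegral.integral_congr fun r hr => ?_
      rw [Set.uIcc_of_le zero_le_one, Set.mem_Icc] at hr
      rw [fr_eq κ n hn1 r hr.1, ha', q3]
    rw [e1]
    refine avg hT hO H M n hHpos a' _ K ?_ ?_
    · refine hHle.trans ?_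
      refine Real.rpow_le_rpow hN0.le ?_ (by linarith)
      exact_mod_cast hn.1
    · have h3 : (n : ℝ) ^ (1 + κ) ≤ (2 * (N : ℝ)) ^ (1 + κ) := by
        refine Real.rpow_le_rpow hn0.le ?_ (by linarith)
        exact_mod_cast hn.2
      rw [Real.mul_rpow (by norm_num) hN0.le] at h3
      refine h3.trans ?_
      have h4 : K = 2 ^ (1 + κ) * 2 := by
        rw [hK, show (2 : ℝ) + κ = (1 + κ) + 1 by ring, Real.rpow_add_one (by norm_num)]
      rw [h4]
      have h5 : (0 : ℝ) < 2 ^ (1 + κ) := by positivity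
      calc (2 : ℝ) ^ (1 + κ) * (N : ℝ) ^ (1 + κ) ≤ 2 ^ (1 + κ) * (2 * H) :=
            mul_le_mul_of_nonneg_left hHge h5.le
        _ = _ := by ring
  refine (sum_le_sum h1).trans ?_
  rw [← mul_sum]
  have hsm : ∀ n ∈ Icc N (2 * N), Summable (fun k : ℕ => (1 / (k.factorial : ℝ)) *
      Real.sqrt (∑ j ∈ range M, ‖bl H a' k n j‖ ^ 2)) := by
    intro n _
    refine Summable.of_nonneg_of_le (fun k => by positivity) (fun k => ?_)
      (sum_fact.1.mul_right (n1 (M * H) a'))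
    exact mul_le_mul_of_nonneg_left (sqrt_le_n1 _ _ _ _ _) (by positivity)
  rw [← Summable.tsum_finsetSum hsm]
  have h2 : ∀ k : ℕ, ∑ n ∈ Icc N (2 * N), (1 / (k.factorial : ℝ)) *
      Real.sqrt (∑ j ∈ range M, ‖bl H a' k n j‖ ^ 2) ≤ (1 / (k.factorial : ℝ)) * (C * P) := by
    intro k
    rw [← mul_sum]
    refine mul_le_mul_of_nonneg_left ?_ (by positivity)
    have h3 := hC N M H a' (fun u => if u < H then ((u : ℝ) / H) ^ k else 0) hN hHle (fun u => by
      split_ifs with h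
      · exact w_le H u k h
      · simp)
    rw [q1, q2] at h3
    refine le_trans (le_of_eq ?_) (h3.trans (le_of_eq ?_))
    · refine sum_congr rfl fun n _ => ?_
      congr 1
      refine sum_congr rfl fun j _ => ?_
      congr 2
      unfold bl
      refine sum_congr rfl fun u hu => ?_
      rw [if_pos (mem_range.1 hu)]
    · rw [hP]
      ring
  have h3 : ∑' k : ℕ, ∑ n ∈ Icc N (2 * N), (1 / (k.factorial : ℝ)) *
      Real.sqrt (∑ j ∈ range M, ‖bl H a' k n j‖ ^ 2) ≤ 3 * (C * P) := by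
    have h4 := Summable.tsum_le_tsum h2 (summable_sum hsm) (sum_fact.1.mul_right (C * P))
    rw [tsum_mul_right] at h4
    refine h4.trans (mul_le_mul_of_nonneg_right sum_fact.2 (by positivity))
  calc Real.sqrt (4 * Real.pi * K) * _ ≤ Real.sqrt (4 * Real.pi * K) * (3 * (C * P)) :=
        mul_le_mul_of_nonneg_left h3 (Real.sqrt_nonneg _)
    _ = _ := by rw [hP]; ring

end Pool.Agent.P8H16.RF
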