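import Mathlib

set_option autoImplicit false

/-!
# Project RF (hard row MP_ecd12e_nt): random perturbations of the integers and Montgomery's conjecture

Goal. Let `κ ≥ 0`, `s ≥ 1/2`, and let `θ_n` be independent and uniform in `[0, 1]`. Replace `n ^ {it}` in
the Dirichlet polynomials `D(t) = ∑_{N ≤ n ≤ 2N} b_n n^{it}` by `(n + θ_n n^{-κ})^{it}`. If Montgomery's
bound holds (for all exponents `> s`) for `n^{it}` and `T ≤ N^{1+κ}`, then for almost every `θ` it holds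
for the perturbed polynomials for ALL `T ≤ N^A`, all `A`; otherwise it fails for every `θ`, already for
`T ≤ N^{1+κ}`. For `κ = 0` the first case holds unconditionally.

Packages: TAY, DOWN, ORT, KHI, SQF, MEAN, SYM, SWP, FIN, ALM, GEN, ONE, HAL. Each is a statement `S_X`
below; deliver `theorem x : S_X` (or `S_Y → S_X` where said). Only Mathlib is needed, except SWP
(`Pool.Agent.P8H75.SU.Tail`), ONE and HAL (starting files `Pool.Agent.Y959.Rs`).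
-/

namespace Pool.Agent.P8H16.RF

open Finset MeasureTheory

/-- `e^{iy}` -/
noncomputable def e (y : ℝ) : ℂ := Complex.exp ((y : ℂ) * Complex.I)

/-- the exponential sum `∑_{t < M} a_t e^{itx}` -/
noncomputable def F (M : ℕ) (a : ℕ → ℂ) (x : ℝ) : ℂ := ∑ t ∈ range M, a t * e ((t : ℝ) * x)

/-- `(∑_{t < M} |a_t|²)^{1/2}` -/
noncomputable def n2 (M : ℕ) (a : ℕ → ℂ) : ℝ := Real.sqrt (∑ t ∈ range M, ‖a t‖ ^ 2)

/-- `∑_{t < M} |a_t|` -/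
noncomputable def n1 (M : ℕ) (a : ℕ → ℂ) : ℝ := ∑ t ∈ range M, ‖a t‖

/-- the perturbed logarithm `log (n + r n^{-κ})` -/
noncomputable def fr (κ : ℝ) (n : ℕ) (r : ℝ) : ℝ := Real.log ((n : ℝ) + r * (n : ℝ) ^ (-κ))

/-- Montgomery's bound for the frequencies `x n`, all exponents `σ > s`, and `N ≤ T ≤ N^A` -/
def Bound (x : ℕ → ℝ) (A s : ℝ) : Prop :=
  ∀ σ : ℝ, s < σ → ∀ ε : ℝ, 0 < ε → ∃ C : ℝ,
    ∀ N : ℕ, 1 ≤ N → ∀ T : ℝ, (N : ℝ) ≤ T → T ≤ (N : ℝ) ^ A →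
    ∀ b : ℕ → ℂ, (∀ n, ‖b n‖ ≤ 1) →
    ∀ W : Finset ℤ, (∀ t ∈ W, 0 ≤ (t : ℝ) ∧ (t : ℝ) ≤ T ∧
      (N : ℝ) ^ σ < ‖∑ n ∈ Icc N (2 * N), b n * e ((t : ℝ) * x n)‖) →
      (W.card : ℝ) ≤ C * (N : ℝ) ^ (2 - 2 * σ + ε)

/-- the dual form: bounds for the sums over the frequencies of `|F|` -/
def L1 (x : ℕ → ℝ) (A s : ℝ) : Prop :=
  ∀ ε : ℝ, 0 < ε → ∃ C : ℝ, 0 ≤ C ∧ ∀ (N M : ℕ) (a : ℕ → ℂ), 1 ≤ N → (M : ℝ) ≤ (N : ℝ) ^ A + 1 →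
    ∑ n ∈ Icc N (2 * N), ‖F M a (x n)‖ ≤
      C * (N : ℝ) ^ ε * ((N : ℝ) * n2 M a + (N : ℝ) ^ s * n1 M a)

/-- the same for the average over the perturbations, for ALL `M` -/
def Mean (κ s : ℝ) : Prop :=
  ∀ ε : ℝ, 0 < ε → ∃ C : ℝ, 0 ≤ C ∧ ∀ (N M : ℕ) (a : ℕ → ℂ), 1 ≤ N →
    ∑ n ∈ Icc N (2 * N), (∫ r in (0 : ℝ)..1, ‖F M a (fr κ n r)‖) ≤
      C * (N : ℝ) ^ ε * ((N : ℝ) * n2 M a + (N : ℝ) ^ s * n1 M a)

/-- the signs -/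
noncomputable def sgn (D : Finset ℕ) (n : ℕ) : ℂ := if n ∈ D then -1 else 1

/-- **TAY** (60 lines). Taylor expansion of `e^{i w v}`, `|v| ≤ 1`.
Proof: `e (w t * v) = ∑' k, (i v w_t)^k / k!` (`NormedSpace.expSeries`/`Complex.hasSum_exp` or
`Complex.exp_eq_tsum...`), a finite sum over `t` of convergent series may be exchanged with `∑'`
(`Summable.tsum_finsetSum`/`hasSum_sum`); `‖∑' k‖ ≤ ∑' ‖ ‖` (`norm_tsum_le_tsum_norm`), and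
`‖(i v)^k / k! * ∑ c_t w_t^k‖ ≤ (1/k!) ‖∑ c_t w_t^k‖`. Summability: the terms are at most
`∑_t ‖c_t‖ |w_t|^k / k!` (`Real.summable_pow_div_factorial`). -/
def S_TAY : Prop := ∀ (M : ℕ) (c : ℕ → ℂ) (w : ℕ → ℝ) (v : ℝ), |v| ≤ 1 →
  Summable (fun k : ℕ => (1 / (k.factorial : ℝ)) * ‖∑ t ∈ range M, c t * (w t : ℂ) ^ k‖) ∧
  ‖∑ t ∈ range M, c t * e (w t * v)‖ ≤
    ∑' k : ℕ, (1 / (k.factorial : ℝ)) * ‖∑ t ∈ range M, c t * (w t : ℂ) ^ k‖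

/-- **DOWN** (120 lines; may assume TAY: `theorem down (h : S_TAY) : S_DOWN`). A bound for perturbed
frequencies gives the bound for the integers, for `M ≤ N^{1+κ} + 1`.
Proof. Put `y n = x n - log n`, `0 ≤ y n ≤ n^{-(1+κ)}`, `X = N^{1+κ}`. For `n` in `[N, 2N]`:
`F M a (log n) = ∑_t a_t e(t x_n) e(-t y_n)`, `-t y_n = (t/X) (-X y_n)` and `|X y_n| ≤ 1`. By TAY with
`c t = a_t e(t x_n)`, `w t = t/X`, `v = -X y_n`: `‖F M a (log n)‖ ≤ ∑' k, (1/k!) ‖F M (a^{(k)}) (x n)‖`,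
`a^{(k)} t = a t (t/X)^k`. Since `t ≤ M - 1 ≤ X`, `‖a^{(k)} t‖ ≤ ‖a t‖`, so `n2 M a^{(k)} ≤ n2 M a` and
`n1 M a^{(k)} ≤ n1 M a`. Sum over `n`, exchange (`Summable.tsum_finsetSum`), apply the hypothesis for
each `k`: the total is at most `∑' (1/k!) B = exp 1 * B` (`Real.exp_eq_...`, or bound by `3 * B`). -/
def S_DOWN : Prop := ∀ (κ s : ℝ) (x : ℕ → ℝ), 0 ≤ κ →
  (∀ n : ℕ, 1 ≤ n → 0 ≤ x n - Real.log n ∧ x n - Real.log n ≤ (n : ℝ) ^ (-(1 + κ))) →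
  L1 x (1 + κ) s → L1 (fun n => Real.log n) (1 + κ) s

/-- **ORT** (120 lines). Orthogonality after a change of variables.
Proof. `φ(r) = H log(1 + r/M)`, `φ'(r) = H/(M + r) ≥ H/(2M) ≥ 1/(2K)` on `[0,1]`, `φ 0 = 0`,
`0 ≤ φ 1 ≤ H/M ≤ 1 ≤ 2π`. With `g(v) = ‖∑ z_j e(j v)‖² ≥ 0`: `∫_0^1 g(φ) ≤ 2K ∫_0^1 g(φ) φ' =
2K ∫_0^{φ 1} g ≤ 2K ∫_0^{2π} g = 4πK ∑ ‖z_j‖²` (`intervalIntegral.integral_comp_mul_deriv`; the last
integral: expand the square, `∫_0^{2π} e((j-k)v) dv = 0` for `j ≠ k`). -/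
def S_ORT : Prop := ∀ (M H K : ℝ) (J : ℕ) (z : ℕ → ℂ), 1 ≤ H → H ≤ M → M ≤ K * H →
  ∫ r in (0 : ℝ)..1, ‖∑ j ∈ range J, z j * e ((j : ℝ) * (H * Real.log (1 + r / M)))‖ ^ 2 ≤
    4 * Real.pi * K * ∑ j ∈ range J, ‖z j‖ ^ 2

/-- **KHI** (100 lines). Khintchine's inequality `L¹ ≥ c L²` for signs, complex coefficients.
Proof. With `S_D = ∑_j sgn D j z_j` and `E` the average over `D ⊆ range J`: `E ‖S‖² = ∑ ‖z_j‖² =: Q`,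
`E ‖S‖⁴ ≤ 3 Q²` (induction on `J`: `‖A + z‖⁴ + ‖A - z‖⁴ ≤ 2 ‖A‖⁴ + 12 ‖A‖² ‖z‖² + 2 ‖z‖⁴`), and then
pointwise `‖S‖ ≥ (3√3/2) ( ‖S‖²/m - ‖S‖⁴/m³ ) * (1)` style: for every `m > 0`, `x ≥ 0`:
`x ≥ x²/m * (3/2) - x⁴/(2 m³)` [since `y ≥ (3y² - y⁴)/2` for `y ≥ 0`: `y(y-1)²(y+2)/2 ≥ 0`]; take
`m = √(3 Q)`: `E‖S‖ ≥ (3/2) Q/√(3Q) - 3Q²/(2 (3Q)^{3/2}) = √Q/√3 ≥ √Q/2`. -/
def S_KHI : Prop := ∀ (J : ℕ) (z : ℕ → ℂ),
  2 ^ J * Real.sqrt (∑ j ∈ range J, ‖z j‖ ^ 2) ≤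
    2 * ∑ D ∈ (range J).powerset, ‖∑ j ∈ range J, sgn D j * z j‖

/-- **SQF** (150 lines; may assume KHI: `theorem sqf (h : S_KHI) : S_SQF`). The square function of the
blocks. Proof. Constant `2C` if `C` is the constant of `L1` for `ε`. For fixed `n` apply KHI to
`z_j = ∑_u a_{jH+u} w_u e(u log n)`: `2^J √(...) ≤ 2 ∑_D ‖F H (A_D) (log n)‖`, where
`A_D u = w_u ∑_j sgn D j a_{jH+u}`. Sum over `n` and use `L1` (`H ≤ N^{1+κ}`) for every `D`. Finally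
`∑_D n1 H A_D ≤ 2^J n1 (J*H) a` (triangle inequality, `|w| ≤ 1`) and
`∑_D n2 H A_D ≤ 2^J n2 (J*H) a` (Cauchy-Schwarz over `D` and `∑_D |∑_j sgn D j x_j|² = 2^J ∑_j |x_j|²`).
Reindex `∑_{t < J*H} f t = ∑_{j<J} ∑_{u<H} f (j*H+u)` (induction on `J`, `Finset.sum_range_add`...). -/
def S_SQF : Prop := ∀ κ s : ℝ, L1 (fun n => Real.log n) (1 + κ) s → ∀ ε : ℝ, 0 < ε → ∃ C : ℝ, 0 ≤ C ∧
  ∀ (N J H : ℕ) (a : ℕ → ℂ) (w : ℕ → ℝ), 1 ≤ N → (H : ℝ) ≤ (N : ℝ) ^ (1 + κ) → (∀ u, |w u| ≤ 1) →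
    ∑ n ∈ Icc N (2 * N), Real.sqrt (∑ j ∈ range J,
      ‖∑ u ∈ range H, a (j * H + u) * (w u : ℂ) * e ((u : ℝ) * Real.log n)‖ ^ 2) ≤
      C * (N : ℝ) ^ ε * ((N : ℝ) * n2 (J * H) a + (N : ℝ) ^ s * n1 (J * H) a)

/-- **MEAN** (200 lines; `theorem mean (h₁ : S_TAY) (h₂ : S_ORT) (h₃ : S_SQF) : S_MEAN`).
Proof. Put `H = ⌊N^{1+κ}⌋₊ ≥ 1`, `K = 2^{2+κ}`; for `n` in `[N,2N]`, `M_n = n^{1+κ}`: `H ≤ M_n ≤ K H`, and
`fr κ n r = log n + η(r)`, `η(r) = log(1 + r/M_n)`, `0 ≤ H η(r) ≤ 1`. We may assume `M = J * H` (replace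
`M` by a multiple and `a` by `0` outside `range M`). Write `t = jH + u`, `u < H`:
`e(t (log n + η)) = e(jH log n) e(u log n) e(jHη) e((u/H)(Hη))`. By TAY with `c t` = the product of
`a t` and the first three factors, `w t = (t % H)/H`, `v = Hη(r)`:
`‖F M a (fr κ n r)‖ ≤ ∑' k, (1/k!) ‖∑_j z_{j,k} e(j (H η(r)))‖`,
`z_{j,k} = e(jH log n) ∑_u a_{jH+u} (u/H)^k e(u log n)`. Integrate over `r`
(`integral_tsum_of_summable_integral_norm` or lintegral), `∫_0^1 ‖g‖ ≤ (∫_0^1 ‖g‖²)^{1/2} ≤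
(4πK)^{1/2} (∑_j ‖z_{j,k}‖²)^{1/2}` by ORT, sum over `n`, SQF with `w u = (u/H)^k`, `∑' 1/k! ≤ 3`. -/
def S_MEAN : Prop := ∀ κ s : ℝ, 0 ≤ κ → L1 (fun n => Real.log n) (1 + κ) s → Mean κ s

/-- the parameters for which a combination deviates by more than `u` -/
def Bad {ι J : Type} [Fintype ι] [Fintype J] (γ : J → ι → unitInterval → ℝ) (u : ℝ) :
    Set (ι → unitInterval) :=
  {θ | ∃ c : J → ℝ, ∑ j, |c j| ≤ 1 ∧
    u < ∑ n, |∑ j, c j * γ j n (θ n)| - ∑ n, ∫ ω, |∑ j, c j * γ j n ω|}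

/-- the symmetrized event -/
def Bad2 {ι J : Type} [Fintype ι] [Fintype J] (γ : J → ι → unitInterval → ℝ) (v : ℝ) :
    Set ((ι → unitInterval) × (ι → unitInterval)) :=
  {q | ∃ c : J → ℝ, ∑ j, |c j| ≤ 1 ∧
    v < ∑ n, (|∑ j, c j * γ j n (q.1 n)| - |∑ j, c j * γ j n (q.2 n)|)}

/-- **SYM** (200 lines). Symmetrization with a second copy.
Proof. `Bad`, `Bad2` are open (unions over `c` of open sets), so measurable. If `u > card ι` then `Bad`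
is empty. Let `u ≤ card ι`, `N = card ι ≥ 1`. For `θ ∈ Bad` fix `c`, `g_n(ω) = |∑ c_j γ_j n ω| ∈ [0,1]`,
`m = ∑_n ∫ g_n`. If `θ'` satisfies `∑ g_n(θ' n) - m ≤ u/2` then `(θ, θ') ∈ Bad2 γ (u/2)`. The other
`θ'` have measure at most `1/2`: Markov for `exp(l(∑ g_n(θ'_n) - m))`, `l = u/(4N) ≤ 1`, with
`∫ exp(l ∑ g_n(θ'_n)) = ∏_n ∫ exp(l g_n)` (`integral_fintype_prod_volume_eq_prod`),
`exp x ≤ 1 + x + x²` for `|x| ≤ 1` (`Real.abs_exp_sub_one_sub_id_le`), so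
`∏ ≤ ∏ exp(l ∫g_n + l²)` and the measure is at most `exp(-l u/2 + l² N) = exp(-u²/(16N)) ≤ exp(-3/4) ≤ 1/2`
(compare `Pool.Agent.P8H75.SU.ghost`; Chebyshev with the variance would do as well). So the section of
`Bad2` over each `θ ∈ Bad` has measure `≥ 1/2`; integrate (`Measure.prod_apply`,
`setLIntegral_const`...). -/
def S_SYM : Prop := ∀ (ι J : Type) [Fintype ι] [Fintype J] (γ : J → ι → unitInterval → ℝ),
  (∀ j n, Continuous (γ j n)) → (∀ j n ω, |γ j n ω| ≤ 1) → ∀ u : ℝ, 0 ≤ u →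
  12 * (Fintype.card ι : ℝ) ≤ u ^ 2 →
  (volume : Measure (ι → unitInterval)) (Bad γ u) ≤
    2 * ((volume : Measure (ι → unitInterval)).prod volume) (Bad2 γ (u / 2))

/-- **SWP** (250 lines; import `Pool.Agent.P8H75.SU.Tail`). Swaps, contraction, union bound.
Proof. For `D ⊆ univ` the map which swaps the coordinates `q.1 n`, `q.2 n` for `n ∈ D` preserves
`volume.prod volume` (e.g. via `measurePreserving_arrowProdEquivProdArrow` and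
`MeasureTheory.volume_preserving_pi` with `Prod.swap`, `measurePreserving_swap`); the preimage of `Bad2`
is `{q | ∃ c, v < ∑_n sg D n (g_c(q.1 n) - g_c(q.2 n))}`. So `2^N μ²(Bad2) = ∫ ∑_D ind(...)`, and for every
fixed `q`: `∑_D ind(∃ c, v < ∑ sg D n (g_c(q.1 n) - g_c(q.2 n))) ≤ ∑_D ind(∃ c, v/2 < ∑ sg D n g_c(q.1 n))
+ ∑_D ind(∃ c, v/2 < ∑ sg D n (-g_c(q.2 n)))`; by `contraction` (with `y = 1`, resp. `y = -1`, `a = 0`,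
`H = {c // ∑ |c_j| ≤ 1}`) the absolute values may be dropped, then `hull` and `one_sum` (with
`l = v/(2N)`, `z n = γ j n (q.1 n)`, `∑ z² ≤ N`) bound each of the two sums by
`2 |J| 2^N exp(-l v/2 + l² N/2) = 2 |J| 2^N exp(-v²/(8N))`. -/
def S_SWP : Prop := ∀ (ι J : Type) [Fintype ι] [Fintype J] (γ : J → ι → unitInterval → ℝ),
  (∀ j n, Continuous (γ j n)) → (∀ j n ω, |γ j n ω| ≤ 1) → ∀ v : ℝ, 0 ≤ v →
  ((volume : Measure (ι → unitInterval)).prod volume) (Bad2 γ v) ≤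
    ENNReal.ofReal (4 * (Fintype.card J : ℝ) * Real.exp (-(v ^ 2 / (8 * (Fintype.card ι : ℝ)))))

/-- the law of independent random variables, uniform in `[0, 1]` -/
noncomputable def Pr : Measure (ℕ → unitInterval) :=
  Measure.infinitePi (fun _ : ℕ => (volume : Measure unitInterval))

/-- **FIN** (200 lines; `theorem fin (h₁ : S_SYM) (h₂ : S_SWP) : S_FIN`). The deviation for the
exponential sums.
Proof. `ι = ↥(Icc N (2*N))` (card `N + 1`), `J = Fin M × Bool`,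
`γ (t, b) n ω = cos (t fr κ n ω)` or `sin (t fr κ n ω)` (continuous in `ω`: `n + ω n^{-κ} > 0`).
If `n1 M a = A > 0` and `c = (Re a_t, -Im a_t)/(2A)` then `∑ |c| ≤ 1` and the combination is
`Re F M a /(2A)`; similarly `Im F`. Outside `Bad γ u`: `∑_n |Re F(θ)| ≤ ∑ ∫ |Re F| + 2Au ≤ ∑ ∫ ‖F‖ + 2Au`,
the same for `Im`, and `‖F‖ ≤ |Re F| + |Im F|`. So the event is contained in the preimage of `Bad γ u`
under the restriction to `ι`, whose law is `Measure.pi` (`Measure.infinitePi_map_restrict`,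
`infinitePi_cylinder`). `volume (Bad γ u) ≤ 2 * 4 * (2M) exp(-(u/2)²/(8(N+1)))`. The integral over
`unitInterval` is the interval integral over `[0,1]` (`unitInterval.measurePreserving_coe`,
`integral_Icc_eq_integral_Ioc`). -/
def S_FIN : Prop := ∀ (κ : ℝ) (N M : ℕ) (u : ℝ), 1 ≤ N → 0 ≤ u → 12 * ((N : ℝ) + 1) ≤ u ^ 2 →
  Pr {θ | ∃ a : ℕ → ℂ, 4 * u * n1 M a +
      2 * ∑ n ∈ Icc N (2 * N), (∫ r in (0 : ℝ)..1, ‖F M a (fr κ n r)‖) <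
        ∑ n ∈ Icc N (2 * N), ‖F M a (fr κ n (θ n))‖} ≤
    ENNReal.ofReal (16 * M * Real.exp (-(u ^ 2 / (32 * ((N : ℝ) + 1)))))

/-- **ALM** (200 lines; `theorem alm (h : S_FIN) : S_ALM`). Borel-Cantelli.
Proof. It suffices to show for each natural `A` that for almost all `θ` the property `L1 _ A s` holds
(monotone in `A`; `ae_all_iff`). Let `M_N = ⌊N^A + 1⌋₊`, `u_N² = 32 (N+1) (A+3) log(N+2)`
(`≥ 12 (N+1)` for all `N ≥ 1`); the measure of the event of FIN is at most `16 M_N (N+2)^{-(A+3)} ≤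
C N^{-2}`, summable, so (`measure_setOf_frequently_eq_zero`/`ae_eventually_notMem`) almost every `θ` is in
only finitely many of the events. For such a `θ` and `N ≥ N₀(θ)`, all `M ≤ N^A + 1` and all `a` (put
`a = 0` outside `range M` to pass from `M_N` to `M`): `∑ ‖F M a (fr κ n (θ n))‖ ≤ 4 u_N n1 + 2 * (Mean)`
and `u_N ≤ C N^{1/2+ε} ≤ C N^{s+ε}`; for `N < N₀` use `∑ ‖F‖ ≤ (N+1) n1 ≤ (N₀+1) n1 ≤ C N^s n1`
(`s ≥ 0`). The constant may depend on `θ`. -/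
def S_ALM : Prop := ∀ κ s : ℝ, 1 / 2 ≤ s → Mean κ s →
  ∀ᵐ θ ∂Pr, ∀ A : ℝ, L1 (fun n => fr κ n (θ n)) A s

/-- **GEN** (200 lines). Montgomery's bound is equivalent to its dual form.
Proof. (→) Let `A ≥ 1`, `ε > 0`, `X = N^A`, `N ≥ 2` (for `N = 1`: `∑ ‖F‖ ≤ 2 n1`). For given `a` choose
`|b_n| ≤ 1` with `∑_n ‖F(x_n)‖ = ∑_n b_n F(x_n) = ∑_t a_t D(t) ≤ ∑ ‖a_t‖ ‖D(t)‖`
(compare `Pool.Agent.P8H75.SU.phase`, `dualDown`). Put `σ_i = s + iη`, `1 ≤ i ≤ I`, `η = ε/4`, `σ_I ≥ 2`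
(`‖D‖ ≤ N+1 < N²+1`...). The `t` with `‖D(t)‖ ≤ N^{σ_1}` contribute at most `N^{σ_1} n1 ≤ N^{s+ε} n1`; by
Cauchy-Schwarz the others contribute at most `n2 (∑_i #{‖D‖ > N^{σ_i}} N^{2σ_{i+1}})^{1/2}` and
`#{‖D‖ > N^{σ_i}} ≤ C_i N^{2-2σ_i+η}`, so `≤ n2 (C N^{2+3η})^{1/2}`.
(←) Let `s < σ`, `ε > 0`, `W` as in `Bound` with `R` elements, `M = ⌊T⌋₊ + 1 ≤ N^A + 1`. With `|a_t| = 1` on
`W` and `0` outside: `R N^σ ≤ ∑_t a_t D(t) ≤ ∑_n ‖F(x_n)‖ ≤ C N^δ (N √R + N^s R)`, `δ = min(ε/2, (σ-s)/2)`.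
If `C N^{s+δ} ≤ N^σ/2` (true if `N^{(σ-s)/2} ≥ 2C`) then `√R N^σ ≤ 2C N^{1+δ}`; otherwise `N` is bounded
and `R ≤ N^A + 1` is bounded. -/
def S_GEN : Prop := ∀ (x : ℕ → ℝ) (A s : ℝ), 0 ≤ s →
  (1 ≤ A → Bound x A s → L1 x A s) ∧ (L1 x A s → Bound x A s)

/-- **ONE** (60 lines; import `Pool.Agent.Y959.Rs.Mk`). The case `M ≤ N + 1` (large sieve).
Proof. As in GEN, `∑_n ‖F(log n)‖ = ∑_t a_t D(t) ≤ n2 (∑_{t ≤ N} ‖D(t)‖²)^{1/2}`, and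
`Pool.Agent.Y959.Rs.moment_W` with its `κ = 1`, `T = N` gives `∑_t ‖D‖² ≤ K N^δ 2N (N+1)`. -/
def S_ONE : Prop := L1 (fun n => Real.log n) 1 (1 / 2)

/-- **HAL** (100 lines; import `Pool.Agent.Y959.Rs.Hal`). The case `M ≤ N^{1+κ} + 1`, `0 ≤ κ ≤ 1`, from the
inequality of Halász and Montgomery.
Proof. `∑_n ‖F(log n)‖ ≤ (N+1)^{1/2} (∑_n |F|²)^{1/2}` and `∑_n |F|² = ∑_{t,t'} a_t conj(a_{t'})
∑_n n^{i(t-t')} ≤ (N+1) n2² + ∑_{t ≠ t'} |a_t a_t'| (42 N/|t-t'| + μ)`, `μ = 14 (T(1+log N))^{1/2}`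
(`ker_sqrt`, `T = ⌊N^{1+κ}⌋`; `ker_abs`), and `≤ C N^{1+ε} n2² + μ n1²` (`|ab| ≤ (a²+b²)/2`). So
`∑ ‖F‖ ≤ C N^ε (N n2 + N^{1/2 + (1+κ)/4} n1)`. -/
def S_HAL : Prop := ∀ κ : ℝ, 0 ≤ κ → κ ≤ 1 → L1 (fun n => Real.log n) (1 + κ) ((3 + κ) / 4)

end Pool.Agent.P8H16.RF
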