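import Pool.Agent.P8H16.RF.Stm

set_option autoImplicit false

/-!
# Project RF, stronger form: all `T ≤ exp (N ^ δ)` for the perturbed frequencies
-/

namespace Pool.Agent.P8H16.RF

open Finset MeasureTheory

/-- the dual bound for all `M ≤ exp (N ^ δ) + 1`, where `δ` may depend on `ε` -/
def L1e (x : ℕ → ℝ) (s : ℝ) : Prop :=
  ∀ ε : ℝ, 0 < ε → ∃ δ : ℝ, 0 < δ ∧ ∃ C : ℝ, 0 ≤ C ∧ ∀ (N M : ℕ) (a : ℕ → ℂ), 1 ≤ N →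
    (M : ℝ) ≤ Real.exp ((N : ℝ) ^ δ) + 1 →
    ∑ n ∈ Icc N (2 * N), ‖F M a (x n)‖ ≤
      C * (N : ℝ) ^ ε * ((N : ℝ) * n2 M a + (N : ℝ) ^ s * n1 M a)

/-- Montgomery's bound for the frequencies `x n`, all exponents `σ > s` and all `T ≤ exp (N ^ δ)`, where
`δ > 0` may depend on `σ` and `ε` -/
def BoundE (x : ℕ → ℝ) (s : ℝ) : Prop :=
  ∀ σ : ℝ, s < σ → ∀ ε : ℝ, 0 < ε → ∃ δ : ℝ, 0 < δ ∧ ∃ C : ℝ,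
    ∀ N : ℕ, 1 ≤ N → ∀ T : ℝ, T ≤ Real.exp ((N : ℝ) ^ δ) →
    ∀ b : ℕ → ℂ, (∀ n, ‖b n‖ ≤ 1) →
    ∀ W : Finset ℤ, (∀ t ∈ W, 0 ≤ (t : ℝ) ∧ (t : ℝ) ≤ T ∧
      (N : ℝ) ^ σ < ‖∑ n ∈ Icc N (2 * N), b n * e ((t : ℝ) * x n)‖) →
      (W.card : ℝ) ≤ C * (N : ℝ) ^ (2 - 2 * σ + ε)

/-- **ALM2** (200 lines; `theorem alm2 (h : S_FIN) : S_ALM2`). The stronger form of ALM.
Proof. As ALM. By monotonicity in `ε` it suffices to treat `ε = 1/(m+1)` (`ae_all_iff`). Take `δ = ε/2`,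
`M_N = ⌊exp (N^δ) + 1⌋₊`, `u_N² = 32 (N+1) (N^δ + 3 log (N+2))` (`≥ 12 (N+1)`); the event of FIN for
`M_N`, `u_N` has measure at most `16 M_N exp (-N^δ) (N+2)^{-3} ≤ 32 (N+2)^{-2}`, summable. Almost every `θ`
is in finitely many events only; for `N ≥ N₀(θ)`, `M ≤ M_N`:
`∑ ‖F M a (fr κ n (θ n))‖ ≤ 4 u_N n1 + 2 (Mean)`, `u_N ≤ C N^{1/2 + ε}`; for `N < N₀` the trivial bound. -/
def S_ALM2 : Prop := ∀ κ s : ℝ, 1 / 2 ≤ s → Mean κ s → ∀ᵐ θ ∂Pr, L1e (fun n => fr κ n (θ n)) s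

/-- **GEN2** (120 lines). (1) is the direction (←) of GEN with `exp (N^δ)` in place of `N^A`: let `s < σ`,
`0 < ε`, `ε' = min (ε/2) ((σ-s)/2)`, and `δ`, `C` from `L1e` for `ε'`. For `W` with `R` elements, `T`,
`M = ⌊T⌋₊ + 1 ≤ exp (N^δ) + 1`: `R N^σ ≤ C N^{ε'} (N √R + N^s R)`; if `2 C N^{s+ε'} ≤ N^σ` then
`√R N^σ ≤ 2 C N^{1+ε'}`; otherwise `N ≤ N₀` and `R ≤ T + 1 ≤ exp (N₀^δ) + 1`.
(2) For given `A`, `δ` there is `N₀` with `N^A ≤ exp (N^δ)` for `N ≥ N₀`; for `N < N₀`, `R ≤ N₀^A + 1`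
(or `N₀^{|A|} + 1`). -/
def S_GEN2 : Prop := ∀ (x : ℕ → ℝ) (s : ℝ), 0 ≤ s →
  (L1e x s → BoundE x s) ∧ (BoundE x s → ∀ A : ℝ, Bound x A s)

end Pool.Agent.P8H16.RF
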